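import Pool.Agent.Helper36.Pin.Defs3

/-!
# The theorem of Jackson and Jordán: definitions
-/

namespace Pool.Agent.Helper36.JJ

open Finset Module
open Pool.Agent.Helper36.Pin

/-- The gradient of a polynomial with rational coefficients at a real point. -/
noncomputable def grad {ι : Type} (f : MvPolynomial ι ℚ) (z : ι → ℝ) : ι → ℝ :=
  fun i => MvPolynomial.aeval z (MvPolynomial.pderiv i f)

variable {V : Type} [Fintype V] [DecidableEq V]

/-- The edge lengths inside `X` determine the generic realizations of `X` up to isometry. -/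
def GlobOn (G : SimpleGraph V) (X : Finset V) : Prop :=
  ∀ p : V → Fin 2 → ℝ, Generic p → ∀ q : V → Fin 2 → ℝ,
    (∀ u ∈ X, ∀ v ∈ X, G.Adj u v → dsq (q u) (q v) = dsq (p u) (p v)) →
      ∀ u ∈ X, ∀ v ∈ X, dsq (q u) (q v) = dsq (p u) (p v)

open Classical in
/-- the neighbours of `v` in `X` -/
noncomputable def nb (G : SimpleGraph V) (X : Finset V) (v : V) : Finset V :=
  X.filter (fun w => G.Adj v w)

/-- A circuit of the rigidity matroid: a minimal non-sparse set of pairs of distinct vertices. -/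
def Circ (C : Finset (Sym2 V)) : Prop :=
  (∀ e ∈ C, ¬ e.IsDiag) ∧ ¬ Sparse C ∧ ∀ e ∈ C, Sparse (C.erase e)

/-- `F` is rigid on `Y` and has no coloops. -/
structure Good (F : Finset (Sym2 V)) (Y : Finset V) : Prop where
  sub : F ⊆ Y.sym2
  two : 2 ≤ Y.card
  rigid : rk F + 3 = 2 * Y.card
  red : ∀ e ∈ F, rk (F.erase e) = rk F

/-- The squared length of the pair `v w` as a polynomial in the coordinates. -/
noncomputable def lenP (v w : V) : MvPolynomial (V × Fin 2) ℚ :=
  (MvPolynomial.X (v, 0) - MvPolynomial.X (w, 0)) ^ 2 +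
    (MvPolynomial.X (v, 1) - MvPolynomial.X (w, 1)) ^ 2

/-- The squared length of an unordered pair. -/
noncomputable def lenE (e : Sym2 V) : MvPolynomial (V × Fin 2) ℚ :=
  lenP (Quot.out e).1 (Quot.out e).2

/-- The row of an unordered pair (over the reals). -/
noncomputable def rowR (q : V → Fin 2 → ℝ) (e : Sym2 V) : V × Fin 2 → ℝ :=
  row q (Quot.out e).1 (Quot.out e).2

/-- the configuration which belongs to a vector of coordinates -/
def cfg (z : V × Fin 2 → ℝ) : V → Fin 2 → ℝ := fun v i => z (v, i)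

/-- The squared lengths of the pairs in `B` and three coordinates of the vertices `x₀`, `x₁`. -/
noncomputable def pinF (B : Finset (Sym2 V)) (x₀ x₁ : V) :
    B ⊕ Fin 3 → MvPolynomial (V × Fin 2) ℚ :=
  Sum.elim (fun e : B => lenE (e : Sym2 V))
    ![MvPolynomial.X (x₀, 0), MvPolynomial.X (x₀, 1), MvPolynomial.X (x₁, 1)]

theorem mem_nb {G : SimpleGraph V} {X : Finset V} {v w : V} :
    w ∈ nb G X v ↔ w ∈ X ∧ G.Adj v w := by
  simp [nb]

end Pool.Agent.Helper36.JJ
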