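import Pool.Agent.Helper10.JJ.Counting
import Pool.Agent.Helper31.JJ.Conn
import Pool.Agent.Helper11.JJ.ColoopInside
import Pool.Agent.Helper22.Pin.QB

/-!
# Deletion of a vertex whose neighbours form a clique
-/

namespace Pool.Agent.Helper36.JJ

open Finset Module
open Pool.Agent.Helper36.Pin

variable {V : Type} [Fintype V] [DecidableEq V]

theorem nb_subset (G : SimpleGraph V) (X : Finset V) (v : V) : nb G X v ⊆ X := by
  intro w hw; exact (mem_nb.1 hw).1

theorem nb_subset_erase (G : SimpleGraph V) (X : Finset V) (v : V) : nb G X v ⊆ X.erase v := by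
  intro w hw
  rw [mem_nb] at hw
  exact mem_erase.2 ⟨hw.2.ne', hw.1⟩

/-- the graph on `V` with the edges of `G[X]` -/
theorem edges_restr (G : SimpleGraph V) (X : Finset V) :
    edges (G ⊓ completeOn X) = edges G ∩ X.sym2 := by
  ext e
  induction e using Sym2.ind with
  | _ u v =>
    rw [mem_edges_mk, mem_inter, mem_edges_mk, mk_mem_sym2]
    constructor
    · rintro ⟨h1, h2⟩; exact ⟨h1, h2.2.1, h2.2.2⟩
    · rintro ⟨h1, h2⟩; exact ⟨h1, h1.ne, h2.1, h2.2⟩

/-- assembly of JC-3, JC-4, JC-5 -/
theorem lemmaA {G : SimpleGraph V} {X : Finset V} (h5 : 5 ≤ X.card) (hG : GR G X) {v : V}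
    (hv : v ∈ X) (hr : rk (edges G ∩ (X.erase v).sym2) + 3 = 2 * (X.erase v).card)
    (hcl : ∀ a ∈ nb G X v, ∀ b ∈ nb G X v, a ≠ b → G.Adj a b) : GR G (X.erase v) := by
  classical
  have hX' : (X.erase v).card = X.card - 1 := card_erase_of_mem hv
  have h3 := threeConn_erase h5 hG.1 hv hcl
  have hdeg := three_le_deg hG.1 hv
  refine ⟨h3, hr, ?_⟩
  -- the coloops
  set H : SimpleGraph V := G ⊓ completeOn (X.erase v) with hH
  have hE : edges H = edges G ∩ (X.erase v).sym2 := edges_restr G _
  have hcol : ∀ e ∈ coloops H, (nb G X v).card = 3 ∧ e ∈ (nb G X v).sym2 := by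
    intro e he
    unfold coloops at he
    rw [mem_filter, hE] at he
    exact coloop_inside hG.2 hv hdeg hcl hr he.1 he.2
  have hempty : coloops H = ∅ := by
    by_contra hne
    obtain ⟨e, he⟩ := nonempty_iff_ne_empty.2 hne
    have hN3 := (hcol e he).1
    refine counting G (X.erase v) h3 (blocks H) (coloops H) (nb G X v) (by omega)
      (nb_subset_erase G X v) (fun f hf => (hcol f hf).2)
      (fun f hf => (mem_inter.1 (hE ▸ coloops_subset H hf)).1) ?_ ?_ ?_
    · intro Z hZ
      have h4 := block_card hZ
      have hrig := (comps_blocks H).rigid Z hZ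
      have hZX : Z ⊆ X.erase v := by
        intro w hw
        by_contra hwX
        have h6 : core H ∩ Z.sym2 ⊆ (Z.erase w).sym2 := by
          intro f hf
          have h2 := (mem_inter.1 (hE ▸ core_subset H (mem_inter.1 hf).1)).2
          have h3 := (mem_inter.1 hf).2
          rw [Finset.mem_sym2_iff] at h2 h3 ⊢
          intro a ha
          exact mem_erase.2 ⟨fun h => hwX (h ▸ h2 a ha), h3 a ha⟩
        have h7 : (Z.erase w).card = Z.card - 1 := card_erase_of_mem hw
        have := rk_inside_le _ (Z.erase w) (by omega) h6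
        omega
      refine ⟨h4, hZX, ?_⟩
      rintro rfl
      have h8 := rk_edges H
      have h9 : core H ∩ (X.erase v).sym2 = core H :=
        inter_eq_left.2 ((core_subset H).trans (by rw [hE]; exact inter_subset_right))
      rw [h9] at hrig
      rw [hE] at h8
      have h10 : (coloops H).card = 0 := by omega
      rw [card_eq_zero] at h10
      exact hne h10
    · intro u hu w hw huw
      have h6 : s(u, w) ∈ edges H := by
        rw [hE, mem_inter, mem_edges_mk, mk_mem_sym2]; exact ⟨huw, hu, hw⟩
      by_cases h7 : s(u, w) ∈ coloops H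
      · exact Or.inl h7
      · right
        have h8 : s(u, w) ∈ core H := by
          unfold core
          exact mem_sdiff.2 ⟨h6, h7⟩
        obtain ⟨Z, hZ, h9⟩ := (comps_blocks H).cover _ h8 (core_not_diag H _ h8)
        exact ⟨Z, hZ, mk_mem_sym2.1 h9⟩
    · have h6 := (comps_blocks H).sum
      have h7 := rk_edges H
      rw [hE] at h7
      omega
  intro e he
  have h6 : e ∉ coloops H := by rw [hempty]; exact notMem_empty e
  unfold coloops at h6
  rw [mem_filter, hE, not_and] at h6
  have h7 := h6 he
  have h8 := rk_mono (erase_subset e (edges G ∩ (X.erase v).sym2))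
  omega

end Pool.Agent.Helper36.JJ
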