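import Pool.Agent.Helper11.JJ.CaseB1
import Pool.Agent.Helper21.JJ.CaseB2

/-!
# Existence of a vertex whose deletion leaves a rigid graph
-/

namespace Pool.Agent.Helper36.JJ

open Finset Module
open Pool.Agent.Helper36.Pin

variable {V : Type} [Fintype V] [DecidableEq V]

theorem good_of_redRigid {G : SimpleGraph V} {X : Finset V} (hX : 2 ≤ X.card)
    (h : RedRigid G X) : Good (edges G ∩ X.sym2) X where
  sub := inter_subset_right
  two := hX
  rigid := h.1
  red := fun e he => by have h1 := h.2 e he; have h2 := h.1; omega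

theorem edges_diag {G : SimpleGraph V} {e : Sym2 V} (he : e ∈ edges G) : ¬ e.IsDiag :=
  G.not_isDiag_of_mem_edgeSet (mem_edges.1 he)

theorem inter_diag {G : SimpleGraph V} {X : Finset V} :
    ∀ e ∈ edges G ∩ X.sym2, ¬ e.IsDiag := fun _ he => edges_diag (mem_inter.1 he).1

theorem rk_inter_le (G : SimpleGraph V) (X : Finset V) (hX : 2 ≤ X.card) :
    rk (edges G ∩ X.sym2) + 3 ≤ 2 * X.card := rk_inside_le _ X hX inter_subset_right

/-- assembly -/
theorem lemmaB {G : SimpleGraph V} {X : Finset V} (h5 : 5 ≤ X.card) (hG : GR G X) :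
    ∃ v ∈ X, rk (edges G ∩ (X.erase v).sym2) + 3 = 2 * (X.erase v).card := by
  classical
  have hgX : Good (edges G ∩ X.sym2) X := good_of_redRigid (by omega) hG.2
  -- an edge and a circuit
  have hne : (edges G ∩ X.sym2).Nonempty := by
    rw [nonempty_iff_ne_empty]
    intro h0
    have h1 := hgX.rigid
    rw [h0, rk_empty] at h1
    omega
  obtain ⟨e, he⟩ := hne
  obtain ⟨C₀, hC₀, hcirc₀, -⟩ := exists_circ_mem inter_diag he (hgX.red e he)
  by_cases hspan : ∃ C ⊆ edges G ∩ X.sym2, Circ C ∧ Good C X ∧ C.card + 2 = 2 * X.card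
  · obtain ⟨C, hCG, hC, hgood, hcard⟩ := hspan
    obtain ⟨v, hv, hdeg⟩ := exists_deg_le_three (hCG.trans inter_subset_right) hC.1 hcard
    refine ⟨v, hv, ?_⟩
    have h1 := hgood.erase_of_deg hv (by omega) hdeg
    apply le_antisymm
    · refine rk_inter_le G _ ?_
      rw [card_erase_of_mem hv]; omega
    · rw [← h1]
      have h2 : C ∩ (X.erase v).sym2 ⊆ edges G ∩ (X.erase v).sym2 :=
        inter_subset_inter_right (hCG.trans inter_subset_left)
      have := rk_mono h2
      omega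
  · -- the family of the proper good sets
    have hsubX : ∀ C ⊆ edges G ∩ X.sym2, ∀ Y, Good C Y → Y ⊆ X := by
      intro C hCG Y hY w hw
      by_contra hwX
      have h1 : C ⊆ (Y.erase w).sym2 := by
        intro f hf
        have h2 := (mem_inter.1 (hCG hf)).2
        have h3 := hY.sub hf
        rw [Finset.mem_sym2_iff] at h2 h3 ⊢
        intro a ha
        exact mem_erase.2 ⟨fun h => hwX (h ▸ h2 a ha), h3 a ha⟩
      have h4 := hY.rigid
      have h5 : (Y.erase w).card = Y.card - 1 := card_erase_of_mem hw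
      have h6 := hY.two
      by_cases h7 : 2 ≤ (Y.erase w).card
      · have := rk_inside_le C _ h7 h1
        omega
      · have := rk_inside_small C _ (by omega) h1
        omega
    obtain ⟨Y₀, hY₀, hY₀c⟩ := circ_exists_good hcirc₀
    have hY₀X : Y₀ ⊆ X := hsubX C₀ hC₀ Y₀ hY₀
    have hY₀ne : Y₀ ≠ X := by
      rintro rfl
      exact hspan ⟨C₀, hC₀, hcirc₀, hY₀, hY₀c⟩
    set 𝒢 : Finset (Finset V) := X.powerset.filter
      (fun Y => Y ≠ X ∧ Good (edges G ∩ Y.sym2) Y) with h𝒢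
    have hne𝒢 : 𝒢.Nonempty := by
      refine ⟨Y₀, ?_⟩
      rw [h𝒢, mem_filter, mem_powerset]
      exact ⟨hY₀X, hY₀ne, hY₀.add (subset_inter (hC₀.trans inter_subset_left) hY₀.sub)
        inter_subset_right⟩
    obtain ⟨Y, hY, hmax⟩ := exists_max_image 𝒢 card hne𝒢
    rw [h𝒢, mem_filter, mem_powerset] at hY
    obtain ⟨hYX, hYne, hYg⟩ := hY
    by_cases hcr : ∃ C ⊆ edges G ∩ X.sym2, Circ C ∧ (C ∩ Y.sym2).Nonempty ∧ ¬ C ⊆ Y.sym2
    · obtain ⟨C, hCG, hC, h1, h2⟩ := hcr
      refine caseB1 G X Y hgX hYX hYne hYg ?_ C hC hCG h1 h2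
      intro Y' hYY' hY'X hY'ne hY'g
      have h3 := hmax Y' (by rw [h𝒢, mem_filter, mem_powerset]; exact ⟨hY'X, hY'ne, hY'g⟩)
      exact (eq_of_subset_of_card_le hYY' h3).symm
    · exfalso
      refine caseB2 G X Y hG hYX hYne hYg ?_
      intro C hCG hC h1
      by_contra h2
      exact hcr ⟨C, hCG, hC, h1, h2⟩

end Pool.Agent.Helper36.JJ
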