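import Pool.Agent.Helper20.JJ.AlgCopy
import Pool.Agent.Helper96.JJ.SubK
import Pool.Agent.Helper71.JJ.PlaneKey
import Pool.Agent.Helper44.Pin.QJ1
import Pool.Agent.Helper16.Pin.RankD

/-!
# The distances between the neighbours of a vertex are preserved
-/

namespace Pool.Agent.Helper36.JJ

open Finset Module
open Pool.Agent.Helper36.Pin

variable {V : Type} [Fintype V] [DecidableEq V]

/-- assembly -/
theorem lemmaK (G : SimpleGraph V) (X : Finset V) (v : V) (hv : v ∈ X)
    (h3 : 3 ≤ (nb G X v).card)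
    (hr : rk (edges G ∩ (X.erase v).sym2) + 3 = 2 * (X.erase v).card)
    (p : V → Fin 2 → ℝ) (hp : Generic p) (q : V → Fin 2 → ℝ)
    (hq : ∀ u ∈ X, ∀ w ∈ X, G.Adj u w → dsq (q u) (q w) = dsq (p u) (p w)) :
    ∀ a ∈ nb G X v, ∀ b ∈ nb G X v, dsq (q a) (q b) = dsq (p a) (p b) := by
  classical
  have hsub : nb G X v ⊆ X.erase v := by
    intro w hw
    rw [mem_nb] at hw
    exact mem_erase.2 ⟨hw.2.ne', hw.1⟩
  have hcard : 3 ≤ (X.erase v).card := h3.trans (card_le_card hsub)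
  obtain ⟨F, hFE, hF, hFc⟩ := ModE.exists_sparse (edges G ∩ (X.erase v).sym2)
  obtain ⟨g, hg, hgal⟩ := alg_copy (X.erase v) F hF (hFE.trans inter_subset_right) (by omega)
    (by omega) p hp q (by
      intro u w huw
      have h1 := hFE huw
      rw [mem_inter, mem_edges_mk, mk_mem_sym2] at h1
      exact hq u (mem_of_mem_erase h1.2.1) w (mem_of_mem_erase h1.2.2) h1.1)
  obtain ⟨K, hK1, hK2⟩ := exists_subfield p hp (X.erase v) v (notMem_erase v X)
  have hpK : ∀ x ∈ X.erase v, ∀ i, p x i ∈ K := by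
    intro x hx i
    apply hK1
    exact isAlgebraic_algebraMap (⟨p x i, Algebra.subset_adjoin ⟨x, hx, i, rfl⟩⟩ :
      Algebra.adjoin ℚ {r : ℝ | ∃ w ∈ X.erase v, ∃ j, r = p w j})
  have h1 := plane_key K (p v) hK2 (nb G X v) h3 p (fun x => g (q x))
    (fun x hx i => hpK x (hsub hx) i) (fun x hx i => hK1 _ (hgal x (hsub hx) i))
    (fun x _ y _ z _ hxy hxz hyz => not_collinear p hp x y z hxy hxz hyz) (g (q v))
    (fun x hx => by
      rw [hg]
      exact hq v hv x (mem_nb.1 hx).1 (mem_nb.1 hx).2)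
  intro a ha b hb
  rw [← h1 a ha b hb, hg]

end Pool.Agent.Helper36.JJ
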