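import Pool.Agent.Helper36.JJ.TwoPts
import Pool.Agent.Helper11.JJ.ColoopExt
import Pool.Agent.Helper44.JJ.Grad
import Pool.Agent.Helper21.JJ.Pinned
import Pool.Agent.Helper33.JJ.LenConst
import Pool.Agent.Helper33.JJ.Bounded
import Pool.Agent.Helper33.JJ.NearEq
import Pool.Agent.Helper16.Pin.RankD

/-!
# Necessity of redundant rigidity (theorem of Hendrickson)
-/

namespace Pool.Agent.Helper36.JJ

open Finset Module
open Pool.Agent.Helper36.Pin

variable {V : Type} [Fintype V] [DecidableEq V]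

omit [Fintype V] [DecidableEq V] in
theorem globallyRigid_mono {G G' : SimpleGraph V} (h : G ≤ G') (hG : GloballyRigid G) :
    GloballyRigid G' :=
  fun p hp q hq u v => hG p hp q (fun a b hab => hq a b (h hab)) u v

/-- a basis of `E.erase e` and `e` -/
theorem exists_basis {E : Finset (Sym2 V)} {e : Sym2 V} (he : e ∈ E) {m : ℕ}
    (h1 : rk (E.erase e) + 4 = m) (h2 : rk E + 3 = m) :
    ∃ B ⊆ E.erase e, Sparse B ∧ B.card + 4 = m ∧ e ∉ B ∧ Sparse (insert e B) ∧
      ∀ f ∈ E.erase e, f ∉ B → ¬ Sparse (insert f B) := by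
  classical
  obtain ⟨B, -, hBE, hB, hBc, hBmax⟩ := ModD.exists_extend (empty_subset (E.erase e))
    ModD.sparse_empty
  refine ⟨B, hBE, hB, by omega, fun h => notMem_erase e E (hBE h), ?_, hBmax⟩
  by_contra hns
  have h3 : B.card = rk E := by
    refine ModD.card_eq_of_maximal (hBE.trans (erase_subset _ _)) hB ?_
    intro f hf hfB
    by_cases hfe : f = e
    · subst hfe; exact hns
    · exact hBmax f (mem_erase.2 ⟨hfe, hf⟩) hfB
  omega

theorem hendrickson (G : SimpleGraph V) (h4 : 4 ≤ Fintype.card V) {e : Sym2 V}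
    (he : e ∈ edges G) (h1 : rk ((edges G).erase e) + 4 = 2 * Fintype.card V)
    (h2 : rk (edges G) + 3 = 2 * Fintype.card V) (hG : GloballyRigid G) : False := by
  classical
  obtain ⟨B, hBE, hB, hBc, heB, hBe, hBmax⟩ := exists_basis he h1 h2
  -- an edge of `B`
  have hBne : B.Nonempty := card_pos.1 (by omega)
  obtain ⟨f₀, hf₀⟩ := hBne
  obtain ⟨x₀, x₁, rfl⟩ : ∃ a b, f₀ = s(a, b) := by
    induction f₀ using Sym2.ind with
    | _ a b => exact ⟨a, b, rfl⟩
  have h01 : x₀ ≠ x₁ := fun h => hB.1 _ hf₀ (by rw [Sym2.mk_isDiag_iff]; exact h)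
  -- generic starting point
  obtain ⟨p₀, hp₀⟩ := exists_generic_real (V := V)
  set z₀ : V × Fin 2 → ℝ := fun x => p₀ x.1 x.2 with hz₀
  have hgen : AlgebraicIndependent ℚ z₀ := hp₀
  have hcfg : cfg z₀ = p₀ := rfl
  have hne₀ : z₀ (x₁, 0) ≠ z₀ (x₀, 0) := by
    intro h
    have := hgen.injective h
    exact h01 (Prod.ext_iff.1 this).1.symm
  have hrow0 : LinearIndependent ℝ
      (fun f : (insert e B : Finset (Sym2 V)) => rowR (cfg z₀) (f : Sym2 V)) :=
    rows_generic (insert e B) hBe p₀ hp₀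
  have hgr0 := pinned_grads (insert e B) x₀ x₁ z₀ hrow0 hne₀ h01
  set F : B ⊕ Fin 3 → MvPolynomial (V × Fin 2) ℚ := pinF B x₀ x₁ with hF
  set h : MvPolynomial (V × Fin 2) ℚ := lenE e with hh
  -- reindexing
  let r : Option (B ⊕ Fin 3) → (insert e B : Finset (Sym2 V)) ⊕ Fin 3 := fun o =>
    o.elim (Sum.inl ⟨e, mem_insert_self e B⟩)
      (Sum.elim (fun f => Sum.inl ⟨f.1, mem_insert_of_mem f.2⟩) Sum.inr)
  have hr : Function.Injective r := by
    rintro (_ | (⟨f, hf⟩ | i)) (_ | (⟨f', hf'⟩ | i')) hEq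
    · rfl
    · simp only [r, Option.elim, Sum.elim_inl, Sum.inl.injEq, Subtype.mk.injEq] at hEq
      exact absurd (hEq ▸ hf') heB
    · simp [r] at hEq
    · simp only [r, Option.elim, Sum.elim_inl, Sum.inl.injEq, Subtype.mk.injEq] at hEq
      exact absurd (hEq ▸ hf) heB
    · simp only [r, Option.elim, Sum.elim_inl, Sum.inl.injEq, Subtype.mk.injEq] at hEq
      subst hEq; rfl
    · simp [r] at hEq
    · simp [r] at hEq
    · simp [r] at hEq
    · simp only [r, Option.elim, Sum.elim_inr, Sum.inr.injEq] at hEq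
      subst hEq; rfl
  have hrF : ∀ o : Option (B ⊕ Fin 3), pinF (insert e B) x₀ x₁ (r o) = o.elim h F := by
    rintro (_ | (⟨f, hf⟩ | i))
    · rfl
    · rfl
    · rfl
  have hgrad : LinearIndependent ℝ (fun o : Option (B ⊕ Fin 3) => grad (o.elim h F) z₀) := by
    have h1 := hgr0.comp r hr
    have h2 : (fun o : Option (B ⊕ Fin 3) => grad (o.elim h F) z₀) =
        (fun k => grad (pinF (insert e B) x₀ x₁ k) z₀) ∘ r := by
      funext o
      show grad (o.elim h F) z₀ = grad (pinF (insert e B) x₀ x₁ (r o)) z₀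
      rw [hrF]
    rw [h2]; exact h1
  have hind : AlgebraicIndependent ℚ
      (fun o : Option (B ⊕ Fin 3) => MvPolynomial.aeval z₀ (o.elim h F)) :=
    algIndep_of_grad (fun o : Option (B ⊕ Fin 3) => o.elim h F) z₀ hgen hgrad
  have hcard : Fintype.card (B ⊕ Fin 3) + 1 = Fintype.card (V × Fin 2) := by
    rw [Fintype.card_sum, Fintype.card_coe, Fintype.card_fin, Fintype.card_prod,
      Fintype.card_fin]
    omega
  -- values of the family
  have hFe : ∀ z : V × Fin 2 → ℝ, (∀ k, MvPolynomial.aeval z (F k) =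
      MvPolynomial.aeval z₀ (F k)) → (z (x₀, 0) = z₀ (x₀, 0) ∧ z (x₀, 1) = z₀ (x₀, 1) ∧
        z (x₁, 1) = z₀ (x₁, 1)) ∧
        ∀ f ∈ B, MvPolynomial.aeval z (lenE f) = MvPolynomial.aeval z₀ (lenE f) := by
    intro z hz
    refine ⟨⟨?_, ?_, ?_⟩, ?_⟩
    · have := hz (Sum.inr 0)
      simpa [hF, pinF] using this
    · have := hz (Sum.inr 1)
      simpa [hF, pinF] using this
    · have := hz (Sum.inr 2)
      simpa [hF, pinF] using this
    · intro f hf
      exact hz (Sum.inl ⟨f, hf⟩)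
  have hbd : Bornology.IsBounded {z : V × Fin 2 → ℝ | ∀ k,
      MvPolynomial.aeval z (F k) = MvPolynomial.aeval z₀ (F k)} := by
    refine (bounded_fibre B hB hBc (by omega) x₀ z₀).subset ?_
    intro z hz
    have h1 := hFe z hz
    exact ⟨h1.1.1, h1.1.2.1, h1.2⟩
  obtain ⟨zs, hzs, hpts⟩ := two_generic_points F h hcard z₀ hind hbd
  have hzs' := hFe zs hzs
  have hBind : AlgebraicIndependent ℚ
      (fun f : B => MvPolynomial.aeval z₀ (lenE (f : Sym2 V))) := by
    have h1 := hind.comp (fun f : B => (some (Sum.inl f) : Option (B ⊕ Fin 3))) (by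
      intro f f' hff
      simpa using hff)
    exact h1
  have hrows : LinearIndependent ℝ (fun f : B => rowR (cfg zs) (f : Sym2 V)) := by
    have h1 : AlgebraicIndependent ℚ
        (fun f : B => MvPolynomial.aeval zs (lenE (f : Sym2 V))) := by
      have h2 : (fun f : B => MvPolynomial.aeval zs (lenE (f : Sym2 V))) =
          fun f : B => MvPolynomial.aeval z₀ (lenE (f : Sym2 V)) :=
        funext fun f => hzs'.2 f.1 f.2
      rw [h2]; exact hBind
    have h3 := grad_of_algIndep (fun f : B => lenE (f : Sym2 V)) zs h1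
    have h4 : (fun f : B => grad (lenE (f : Sym2 V)) zs) =
        fun f : B => (2 : ℝ) • rowR (cfg zs) (f : Sym2 V) := funext fun f => grad_lenE zs f
    rw [h4] at h3
    have h5 := h3.units_smul (fun _ : B => (Units.mk0 (2⁻¹ : ℝ) (by norm_num)))
    convert h5 using 1
    funext f
    show rowR (cfg zs) (f : Sym2 V) = (2⁻¹ : ℝ) • ((2 : ℝ) • rowR (cfg zs) (f : Sym2 V))
    rw [smul_smul]; norm_num
  have hnes : zs (x₁, 0) ≠ zs (x₀, 0) := by
    intro heq
    have h1 := hzs'.2 _ hf₀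
    rw [aeval_lenE_mk, aeval_lenE_mk] at h1
    simp only [dsq, cfg] at h1
    obtain ⟨h2, h3, h4⟩ := hzs'.1
    rw [heq, h3, h4] at h1
    have h5 : (z₀ (x₁, 0) - z₀ (x₀, 0)) ^ 2 = 0 := by linarith
    exact hne₀ (sub_eq_zero.1 (pow_eq_zero_iff (two_ne_zero) |>.1 h5))
  obtain ⟨ε, hε, hnear⟩ := near_eq B hBc h4 x₀ x₁ h01 zs hB.1 hrows hnes
  obtain ⟨z₁, z₂, hne, hz₁, hd₁, hd₂, hheq, S, hS, hz₁S, hz₂S, hSF⟩ := hpts ε hε
  refine hne (hnear z₁ z₂ hd₁ hd₂ ?_ ?_ ?_ ?_)
  · rw [(hFe z₁ (hSF z₁ hz₁S)).1.1, (hFe z₂ (hSF z₂ hz₂S)).1.1]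
  · rw [(hFe z₁ (hSF z₁ hz₁S)).1.2.1, (hFe z₂ (hSF z₂ hz₂S)).1.2.1]
  · rw [(hFe z₁ (hSF z₁ hz₁S)).1.2.2, (hFe z₂ (hSF z₂ hz₂S)).1.2.2]
  · have hlen : ∀ f ∈ edges G, MvPolynomial.aeval z₁ (lenE f) =
        MvPolynomial.aeval z₂ (lenE f) := by
      intro f hf
      by_cases hfe : f = e
      · subst hfe; exact hheq
      by_cases hfB : f ∈ B
      · rw [(hFe z₁ (hSF z₁ hz₁S)).2 f hfB, (hFe z₂ (hSF z₂ hz₂S)).2 f hfB]
      · exact len_const B f (hBmax f (mem_erase.2 ⟨hfe, hf⟩) hfB) z₀ hBind S hS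
          (fun z hz => (hFe z (hSF z hz)).2) z₁ hz₁S z₂ hz₂S
    have h1 := hG (cfg z₁) hz₁ (cfg z₂) (by
      intro u v huv
      have h2 := hlen s(u, v) (mem_edges_mk.2 huv)
      rw [aeval_lenE_mk, aeval_lenE_mk] at h2
      exact h2.symm)
    intro u v
    exact (h1 u v).symm

theorem redRigid_of_globallyRigid (G : SimpleGraph V) (h4 : 4 ≤ Fintype.card V)
    (h : GloballyRigid G) : RedRigid G Finset.univ := by
  by_contra hn
  obtain ⟨G', hGG', e, he, h1, h2⟩ := exists_coloop_ext G h4 hn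
  exact hendrickson G' h4 he h1 h2 (globallyRigid_mono hGG' h)

end Pool.Agent.Helper36.JJ
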