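import Pool.Agent.Helper36.JJ.Suff
import Pool.Agent.Helper36.JJ.Nec
import Pool.Agent.Helper56.JJ.ThreeConn

/-!
# The theorem of Jackson and Jordán

A graph with at least four vertices is globally rigid in the plane if and only if it is 3-connected
and redundantly rigid.
-/

namespace Pool.Agent.Helper36.JJ

open Pool.Agent.Helper36.Pin

variable {V : Type} [Fintype V] [DecidableEq V]

theorem jackson_jordan : JacksonJordan V := by
  intro h4 G
  constructor
  · intro h
    exact ⟨threeConn_of_globallyRigid G h4 h, redRigid_of_globallyRigid G h4 h⟩
  · intro h p hp q hq u v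
    exact globOn_of_GR G Finset.univ h p hp q (fun u _ v _ h => hq u v h) u (Finset.mem_univ _)
      v (Finset.mem_univ _)

end Pool.Agent.Helper36.JJ
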