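import Pool.Agent.Helper36.JJ.LemmaA
import Pool.Agent.Helper36.JJ.LemmaB
import Pool.Agent.Helper36.JJ.LemmaK
import Pool.Agent.Helper79.Pin.J2

/-!
# Sufficiency: 3-connected and redundantly rigid graphs are globally rigid
-/

namespace Pool.Agent.Helper36.JJ

open Finset Module
open Pool.Agent.Helper36.Pin

variable {V : Type} [Fintype V] [DecidableEq V]

theorem GR_mono {G G' : SimpleGraph V} (h : G ≤ G') {X : Finset V} (hG : GR G X) : GR G' X :=
  ⟨threeConn_mono h hG.1, redRigid_mono h hG.1.1 hG.2⟩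

omit [Fintype V] [DecidableEq V] in
theorem le_completeOn (G : SimpleGraph V) (N : Finset V) : G ≤ G ⊔ completeOn N := le_sup_left

open Classical in
/-- the pairs of `X` which are not joined -/
noncomputable def nonE (G : SimpleGraph V) (X : Finset V) : Finset (Sym2 V) :=
  X.sym2.filter (fun e => e ∉ edges G)

theorem nonE_lt {G : SimpleGraph V} {X N : Finset V} (hN : N ⊆ X) {a b : V} (ha : a ∈ N)
    (hb : b ∈ N) (hab : a ≠ b) (hnadj : ¬ G.Adj a b) :
    (nonE (G ⊔ completeOn N) X).card < (nonE G X).card := by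
  classical
  apply card_lt_card
  rw [ssubset_iff_of_subset]
  · refine ⟨s(a, b), ?_, ?_⟩
    · unfold nonE
      rw [mem_filter, mk_mem_sym2, mem_edges_mk]
      exact ⟨⟨hN ha, hN hb⟩, hnadj⟩
    · unfold nonE
      rw [mem_filter, mk_mem_sym2, mem_edges_mk, not_and, not_not]
      intro _
      exact Or.inr ⟨hab, ha, hb⟩
  · intro e he
    unfold nonE at he ⊢
    rw [mem_filter] at he ⊢
    refine ⟨he.1, fun h => he.2 ?_⟩
    rw [mem_edges] at h ⊢
    exact SimpleGraph.edgeSet_mono (le_completeOn G N) h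

/-- attaching a vertex with at least three neighbours -/
theorem globOn_attach {G : SimpleGraph V} {X : Finset V} {v : V} (hv : v ∈ X)
    (h3 : 3 ≤ (nb G X v).card) (h : GlobOn G (X.erase v)) : GlobOn G X := by
  classical
  intro p hp q hq
  have h1 := h p hp q (fun a ha b hb hab => hq a (mem_of_mem_erase ha) b (mem_of_mem_erase hb) hab)
  obtain ⟨Q, hQP, hQ3⟩ := Finset.exists_subset_card_eq h3
  obtain ⟨a, b, c, hab, hac, hbc, hQ⟩ := Finset.card_eq_three.1 hQ3
  have ha := mem_nb.1 (hQP (by simp [hQ] : a ∈ Q))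
  have hb := mem_nb.1 (hQP (by simp [hQ] : b ∈ Q))
  have hc := mem_nb.1 (hQP (by simp [hQ] : c ∈ Q))
  have ha' : a ∈ X.erase v := mem_erase.2 ⟨ha.2.ne', ha.1⟩
  have hb' : b ∈ X.erase v := mem_erase.2 ⟨hb.2.ne', hb.1⟩
  have hc' : c ∈ X.erase v := mem_erase.2 ⟨hc.2.ne', hc.1⟩
  have hnc := not_collinear p hp a b c hab hac hbc
  obtain ⟨g, hg, ga, gb, gc⟩ := J2.exists_isometry (p a) (p b) (p c) (q a) (q b) (q c) hnc
    (h1 a ha' b hb') (h1 a ha' c hc') (h1 b hb' c hc')
  have key : ∀ u ∈ X, g (q u) = p u := by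
    intro u hu
    refine J2.eq_of_dsq (p a) (p b) (p c) _ _ hnc ?_ ?_ ?_
    · rw [← ga, hg, ga]
      by_cases huv : u = v
      · subst huv; exact hq u hu a ha.1 ha.2
      · exact h1 u (mem_erase.2 ⟨huv, hu⟩) a ha'
    · rw [← gb, hg, gb]
      by_cases huv : u = v
      · subst huv; exact hq u hu b hb.1 hb.2
      · exact h1 u (mem_erase.2 ⟨huv, hu⟩) b hb'
    · rw [← gc, hg, gc]
      by_cases huv : u = v
      · subst huv; exact hq u hu c hc.1 hc.2
      · exact h1 u (mem_erase.2 ⟨huv, hu⟩) c hc'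
  intro u hu w hw
  rw [← hg, key u hu, key w hw]

theorem globOn_of_GR (G : SimpleGraph V) (X : Finset V) (h : GR G X) : GlobOn G X := by
  classical
  suffices hmain : ∀ n : ℕ, ∀ X : Finset V, X.card = n → ∀ k : ℕ, ∀ G : SimpleGraph V,
      (nonE G X).card = k → GR G X → GlobOn G X from hmain _ X rfl _ G rfl h
  intro n
  induction n using Nat.strong_induction_on with
  | _ n ihn =>
    intro X hX k
    induction k using Nat.strong_induction_on with
    | _ k ihk =>
      intro G hk hG
      by_cases h5 : 5 ≤ X.card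
      · obtain ⟨v, hv, hr⟩ := lemmaB h5 hG
        have h3 := three_le_deg hG.1 hv
        by_cases hcl : ∀ a ∈ nb G X v, ∀ b ∈ nb G X v, a ≠ b → G.Adj a b
        · have hG' := lemmaA h5 hG hv hr hcl
          have hc : (X.erase v).card = X.card - 1 := card_erase_of_mem hv
          exact globOn_attach hv h3 (ihn (X.card - 1) (by omega) (X.erase v) hc _ G rfl hG')
        · push Not at hcl
          obtain ⟨a, ha, b, hb, hab, hnadj⟩ := hcl
          have h6 := ihk _ (by rw [← hk]; exact nonE_lt (nb_subset G X v) ha hb hab hnadj)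
            (G ⊔ completeOn (nb G X v)) rfl (GR_mono (le_completeOn _ _) hG)
          intro p hp q hq
          refine h6 p hp q ?_
          intro u hu w hw huw
          rcases huw with huw | huw
          · exact hq u hu w hw huw
          · exact lemmaK G X v hv h3 hr p hp q hq u huw.2.1 w huw.2.2
      · have h4 : X.card = 4 := le_antisymm (by omega) hG.1.1
        intro p hp q hq u hu w hw
        by_cases huw : u = w
        · subst huw; rw [J2.dsq_self, J2.dsq_self]
        · exact hq u hu w hw (adj_of_card_four hG.1 h4 u hu w hw huw)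

end Pool.Agent.Helper36.JJ
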