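import Pool.Agent.Helper22.JJ.ExistsMax
import Pool.Agent.Helper93.JJ.Deriv
import Pool.Agent.Helper93.JJ.Curve
import Pool.Agent.Helper70.JJ.Alg10
import Pool.Agent.Helper33.JJ.NotConst

/-!
# Two generic points in a fibre with the same value
-/

namespace Pool.Agent.Helper36.JJ

open Finset Module
open Pool.Agent.Helper36.Pin

theorem continuous_aeval' {ι : Type} (f : MvPolynomial ι ℚ) :
    Continuous (fun z : ι → ℝ => MvPolynomial.aeval z f) := by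
  have h : (fun z : ι → ℝ => MvPolynomial.aeval z f) =
      fun z : ι → ℝ => MvPolynomial.eval z (MvPolynomial.map (algebraMap ℚ ℝ) f) := by
    funext z
    rw [MvPolynomial.eval_map, MvPolynomial.aeval_def]
  rw [h]
  exact MvPolynomial.continuous_eval _

/-- assembly of JA-1, JA-3, JN-1, JN-2, JN-3 -/
theorem two_generic_points {ι κ : Type} [Fintype ι] [Fintype κ]
    (F : κ → MvPolynomial ι ℚ) (h : MvPolynomial ι ℚ)
    (hc : Fintype.card κ + 1 = Fintype.card ι) (z₀ : ι → ℝ)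
    (hz₀ : AlgebraicIndependent ℚ (fun o : Option κ => MvPolynomial.aeval z₀ (o.elim h F)))
    (hbd : Bornology.IsBounded {z : ι → ℝ | ∀ k,
      MvPolynomial.aeval z (F k) = MvPolynomial.aeval z₀ (F k)}) :
    ∃ zs : ι → ℝ, (∀ k, MvPolynomial.aeval zs (F k) = MvPolynomial.aeval z₀ (F k)) ∧
      ∀ ε > 0, ∃ z₁ z₂ : ι → ℝ, z₁ ≠ z₂ ∧ AlgebraicIndependent ℚ z₁ ∧
        dist z₁ zs < ε ∧ dist z₂ zs < ε ∧
        MvPolynomial.aeval z₁ h = MvPolynomial.aeval z₂ h ∧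
        ∃ S : Set (ι → ℝ), IsPreconnected S ∧ z₁ ∈ S ∧ z₂ ∈ S ∧
          ∀ z ∈ S, ∀ k, MvPolynomial.aeval z (F k) = MvPolynomial.aeval z₀ (F k) := by
  classical
  obtain ⟨zs, hzs, hmax, hndep⟩ := exists_max F h z₀ hbd
  refine ⟨zs, hzs, ?_⟩
  have hc₀ : AlgebraicIndependent ℚ (fun k => MvPolynomial.aeval z₀ (F k)) := by
    have := hz₀.comp (some : κ → Option κ) (Option.some_injective κ)
    exact this
  have hcs : AlgebraicIndependent ℚ (fun k => MvPolynomial.aeval zs (F k)) := by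
    have h1 : (fun k => MvPolynomial.aeval zs (F k)) =
        fun k => MvPolynomial.aeval z₀ (F k) := funext hzs
    rw [h1]; exact hc₀
  have hdep : ¬ AlgebraicIndependent ℚ
      (fun o : Option κ => MvPolynomial.aeval zs (o.elim h F)) := by
    intro h1
    exact hndep (grad_of_algIndep (fun o : Option κ => o.elim h F) zs h1)
  obtain ⟨δ, hδ, γ, hγc, hγ0, hγinj, hγF⟩ := exists_curve F hc zs (grad_of_algIndep F zs hcs)
  have hγF' : ∀ t ∈ Set.Icc (-δ) δ, ∀ k,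
      MvPolynomial.aeval (γ t) (F k) = MvPolynomial.aeval z₀ (F k) :=
    fun t ht k => (hγF t ht k).trans (hzs k)
  intro ε hε
  -- a smaller interval
  have h0mem : (0 : ℝ) ∈ Set.Icc (-δ) δ := ⟨by linarith, by linarith⟩
  obtain ⟨δ', hδ', hδ'δ, hnear⟩ : ∃ δ' > 0, δ' ≤ δ ∧ ∀ t ∈ Set.Icc (-δ') δ', dist (γ t) zs < ε := by
    have h1 := Metric.continuousOn_iff.1 hγc 0 h0mem ε hε
    obtain ⟨η, hη, h2⟩ := h1
    refine ⟨min δ (η / 2), lt_min hδ (by linarith), min_le_left _ _, ?_⟩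
    intro t ht
    have h3 : |t| ≤ min δ (η / 2) := abs_le.2 ht
    have h4 := h2 t (abs_le.1 (h3.trans (min_le_left _ _))) (by
      rw [Real.dist_eq, sub_zero]
      have := h3.trans (min_le_right _ _)
      linarith)
    rwa [hγ0] at h4
  have hsub : Set.Icc (-δ') δ' ⊆ Set.Icc (-δ) δ := Set.Icc_subset_Icc (by linarith) hδ'δ
  set φ : ℝ → ℝ := fun t => MvPolynomial.aeval (γ t) h with hφ
  have hφc : ContinuousOn φ (Set.Icc (-δ') δ') :=
    (continuous_aeval' h).comp_continuousOn (hγc.mono hsub)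
  have hφ0 : φ 0 = MvPolynomial.aeval zs h := by rw [hφ]; simp only [hγ0]
  have hφle : ∀ t ∈ Set.Icc (-δ') δ', φ t ≤ φ 0 := by
    intro t ht
    rw [hφ0]
    exact hmax _ (hγF' t (hsub ht))
  have hpos : Set.Icc (0 : ℝ) δ' ⊆ Set.Icc (-δ') δ' := Set.Icc_subset_Icc (by linarith) le_rfl
  have hneg : Set.Icc (-δ') (0 : ℝ) ⊆ Set.Icc (-δ') δ' := Set.Icc_subset_Icc le_rfl (by linarith)
  obtain ⟨t₁, ht₁, h₁⟩ := exists_ne_on_interval F h hc z₀ hz₀ zs hzs hdep γ 0 δ' hδ'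
    (hγinj.mono (hpos.trans hsub)) (fun t ht => hγF' t (hsub (hpos ht)))
  obtain ⟨t₂, ht₂, h₂⟩ := exists_ne_on_interval F h hc z₀ hz₀ zs hzs hdep γ (-δ') 0
    (by linarith) (hγinj.mono (hneg.trans hsub)) (fun t ht => hγF' t (hsub (hneg ht)))
  have h₁' : φ t₁ < φ 0 := lt_of_le_of_ne (hφle t₁ (hpos ht₁)) (by rw [hφ0]; exact h₁)
  have h₂' : φ t₂ < φ 0 := lt_of_le_of_ne (hφle t₂ (hneg ht₂)) (by rw [hφ0]; exact h₂)
  obtain ⟨t, ht, htr⟩ := exists_transc_between _ hc₀ (max (φ t₁) (φ t₂)) (φ 0)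
    (max_lt h₁' h₂')
  have ht1 : φ t₁ < t := (le_max_left _ _).trans_lt ht.1
  have ht2 : φ t₂ < t := (le_max_right _ _).trans_lt ht.1
  -- intermediate values
  obtain ⟨σ₁, hσ₁, hσ₁t⟩ : ∃ σ ∈ Set.Icc 0 t₁, φ σ = t := by
    have h1 := intermediate_value_Icc' ht₁.1
      (hφc.mono ((Set.Icc_subset_Icc le_rfl ht₁.2).trans hpos))
    exact h1 ⟨ht1.le, ht.2.le⟩
  obtain ⟨σ₂, hσ₂, hσ₂t⟩ : ∃ σ ∈ Set.Icc t₂ 0, φ σ = t := by
    have h1 := intermediate_value_Icc ht₂.2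
      (hφc.mono ((Set.Icc_subset_Icc ht₂.1 le_rfl).trans hneg))
    exact h1 ⟨ht2.le, ht.2.le⟩
  have hm₁ : σ₁ ∈ Set.Icc (-δ') δ' := ⟨by linarith [hσ₁.1], hσ₁.2.trans ht₁.2⟩
  have hm₂ : σ₂ ∈ Set.Icc (-δ') δ' := ⟨ht₂.1.trans hσ₂.1, by linarith [hσ₂.2]⟩
  have hne : σ₁ ≠ σ₂ := by
    intro heq
    have h1 : σ₁ = 0 := le_antisymm (by rw [heq]; exact hσ₂.2) hσ₁.1
    rw [h1] at hσ₁t
    exact absurd hσ₁t ht.2.ne'
  refine ⟨γ σ₁, γ σ₂, ?_, ?_, hnear _ hm₁, hnear _ hm₂, ?_, γ '' Set.Icc (-δ') δ', ?_,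
    ⟨σ₁, hm₁, rfl⟩, ⟨σ₂, hm₂, rfl⟩, ?_⟩
  · intro heq
    exact hne (hγinj (hsub hm₁) (hsub hm₂) heq)
  · refine (algIndep_of_card (γ σ₁) (fun o : Option κ => o.elim t
      (fun k => MvPolynomial.aeval z₀ (F k))) htr ?_ ?_).1
    · intro o
      have hmem : ∀ f : MvPolynomial ι ℚ, MvPolynomial.aeval (γ σ₁) f ∈
          Algebra.adjoin ℚ (Set.range (γ σ₁)) := by
        intro f
        rw [Algebra.adjoin_range_eq_range_aeval]
        exact ⟨f, rfl⟩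
      cases o with
      | none =>
        show t ∈ _
        rw [← hσ₁t]
        exact hmem h
      | some k =>
        show MvPolynomial.aeval z₀ (F k) ∈ _
        rw [← hγF' σ₁ (hsub hm₁) k]
        exact hmem (F k)
    · rw [Fintype.card_option, hc]
  · exact hσ₁t.trans hσ₂t.symm
  · exact isPreconnected_Icc.image γ (hγc.mono hsub)
  · rintro z ⟨s, hs, rfl⟩ k
    exact hγF' s (hsub hs) k

end Pool.Agent.Helper36.JJ
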